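import Pool.Agent.Helper71.P4.St
import Mathlib.Analysis.Analytic.Binomial

set_option autoImplicit false

open MeasureTheory Set Filter Topology
open scoped ENNReal

noncomputable section

namespace Helper71.P4

open Helper69.CR

private lemma coeff_nonneg_PS (c : ℝ) (hc : 0 ≤ c) (n : ℕ) :
    0 ≤ Ring.choose (c + n - 1) n := by
  have h : (n.factorial : ℝ) * Ring.choose (c + n - 1) n = (ascPochhammer ℝ n).eval c := by
    have h1 := Ring.factorial_nsmul_multichoose_eq_ascPochhammer c n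
    rw [nsmul_eq_mul] at h1
    have h4 : Ring.choose (c + n - 1) n = Ring.multichoose c n := by
      rw [Ring.choose]
      congr 1
      ring
    rw [h4, h1, Polynomial.ascPochhammer_smeval_eq_eval]
  have h2 : 0 ≤ (ascPochhammer ℝ n).eval c := by
    rcases eq_or_lt_of_le hc with h0 | h0
    · rw [← h0]
      cases n with
      | zero => simp
      | succ k => simp
    · exact (ascPochhammer_pos n c h0).le
  rw [← h] at h2
  have h3 : (0 : ℝ) < n.factorial := by exact_mod_cast n.factorial_pos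
  exact nonneg_of_mul_nonneg_right h2 h3

private lemma series_PS (c : ℝ) (hc : 0 ≤ c) (t : ℝ) (h0 : 0 ≤ t) (h1 : t < 1) :
    ENNReal.ofReal ((1 - t) ^ (-c)) =
      ∑' m : ℕ, ENNReal.ofReal (Ring.choose (c + m - 1) m) * ENNReal.ofReal (t ^ m) := by
  have h := Real.one_div_one_sub_rpow_hasFPowerSeriesOnBall_zero c
  have hm : t ∈ Metric.eball (0 : ℝ) 1 := by
    rw [Metric.mem_eball, edist_zero_right, ← ofReal_norm]
    rw [ENNReal.ofReal_lt_one, Real.norm_eq_abs, abs_of_nonneg h0]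
    exact h1
  have h2 := h.hasSum hm
  rw [zero_add] at h2
  have h3 : HasSum (fun m : ℕ => Ring.choose (c + m - 1) m * t ^ m) ((1 - t) ^ (-c)) := by
    rw [Real.rpow_neg (by linarith), ← one_div]
    have e : (fun m : ℕ => Ring.choose (c + m - 1) m * t ^ m) = fun m : ℕ =>
        (FormalMultilinearSeries.ofScalars ℝ fun n : ℕ => Ring.choose (c + n - 1) n) m
          (fun _ => t) := by
      funext m
      simp [mul_comm]
    rw [e]
    exact h2
  rw [← h3.tsum_eq, ENNReal.ofReal_tsum_of_nonneg _ h3.summable]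
  · congr 1
    funext m
    rw [ENNReal.ofReal_mul (coeff_nonneg_PS c hc m)]
  · intro m
    exact mul_nonneg (coeff_nonneg_PS c hc m) (pow_nonneg h0 m)

private lemma mul_PS (F G : ℝ → ℝ≥0∞) (hF : PS F) (hG : PS G) : PS (fun t => F t * G t) := by
  obtain ⟨a, ha⟩ := hF
  obtain ⟨b, hb⟩ := hG
  refine ⟨fun m => ∑ q ∈ Finset.HasAntidiagonal.antidiagonal m, a q.1 * b q.2, ?_⟩
  intro t h0 h1
  show F t * G t = _
  rw [ha t h0 h1, hb t h0 h1]
  have e1 : (∑' m, a m * ENNReal.ofReal (t ^ m)) * (∑' m, b m * ENNReal.ofReal (t ^ m)) =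
      ∑' q : ℕ × ℕ, (a q.1 * ENNReal.ofReal (t ^ q.1)) * (b q.2 * ENNReal.ofReal (t ^ q.2)) := by
    rw [ENNReal.tsum_prod' (f := fun q : ℕ × ℕ =>
      (a q.1 * ENNReal.ofReal (t ^ q.1)) * (b q.2 * ENNReal.ofReal (t ^ q.2)))]
    rw [← ENNReal.tsum_mul_right]
    congr 1
    funext m
    rw [← ENNReal.tsum_mul_left]
  rw [e1, ← (Finset.HasAntidiagonal.sigmaAntidiagonalEquivProd (A := ℕ)).tsum_eq, ENNReal.tsum_sigma']
  congr 1
  funext m
  rw [tsum_fintype, Finset.sum_mul]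
  rw [Finset.univ_eq_attach, ← Finset.sum_attach (Finset.HasAntidiagonal.antidiagonal m)]
  refine Finset.sum_congr rfl ?_
  intro q _
  have hq : (q : ℕ × ℕ).1 + (q : ℕ × ℕ).2 = m := Finset.HasAntidiagonal.mem_antidiagonal.1 q.2
  simp only [Finset.HasAntidiagonal.sigmaAntidiagonalEquivProd_apply]
  have ht : ENNReal.ofReal (t ^ m) =
      ENNReal.ofReal (t ^ (q : ℕ × ℕ).1) * ENNReal.ofReal (t ^ (q : ℕ × ℕ).2) := by
    rw [← ENNReal.ofReal_mul (pow_nonneg h0 _), ← pow_add, hq]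
  rw [ht]
  ring

private lemma int_PS : PS (fun t => ∫⁻ v in Ioo (0 : ℝ) 1,
    ENNReal.ofReal (v ^ (-(1 / 4) : ℝ) * (1 - t * v) ^ (-(3 / 4) : ℝ))) := by
  refine ⟨fun m => ENNReal.ofReal (Ring.choose ((3 / 4 : ℝ) + m - 1) m) *
    ∫⁻ v in Ioo (0 : ℝ) 1, ENNReal.ofReal (v ^ (-(1 / 4) : ℝ)) * ENNReal.ofReal (v ^ m), ?_⟩
  intro t h0 h1
  have e1 : ∀ v ∈ Ioo (0 : ℝ) 1,
      ENNReal.ofReal (v ^ (-(1 / 4) : ℝ) * (1 - t * v) ^ (-(3 / 4) : ℝ)) =
      ∑' m : ℕ, (ENNReal.ofReal (Ring.choose ((3 / 4 : ℝ) + m - 1) m) * ENNReal.ofReal (t ^ m)) *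
        (ENNReal.ofReal (v ^ (-(1 / 4) : ℝ)) * ENNReal.ofReal (v ^ m)) := by
    intro v hv
    have hv0 : 0 ≤ v := hv.1.le
    have htv : t * v < 1 := by
      have := mul_le_mul_of_nonneg_left hv.2.le h0
      linarith
    rw [ENNReal.ofReal_mul (Real.rpow_nonneg hv0 _),
      series_PS (3 / 4) (by norm_num) (t * v) (mul_nonneg h0 hv0) htv, ← ENNReal.tsum_mul_left]
    congr 1
    funext m
    rw [mul_pow, ENNReal.ofReal_mul (pow_nonneg h0 _)]
    ring
  show ∫⁻ v in Ioo (0 : ℝ) 1, _ = _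
  rw [setLIntegral_congr_fun measurableSet_Ioo e1, lintegral_tsum]
  · congr 1
    funext m
    rw [lintegral_const_mul']
    · ring
    · exact ENNReal.mul_ne_top ENNReal.ofReal_ne_top ENNReal.ofReal_ne_top
  · intro m
    refine Measurable.aemeasurable ?_
    refine Measurable.const_mul ?_ _
    refine Measurable.mul (M := ℝ≥0∞) ?_ ?_
    · exact (measurable_id.pow_const _).ennreal_ofReal
    · exact (measurable_id.pow_const _).ennreal_ofReal

theorem hPS : StPS := by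
  refine ⟨?_, mul_PS, int_PS⟩
  intro c hc
  exact ⟨fun m => ENNReal.ofReal (Ring.choose (c + m - 1) m), fun t h0 h1 => series_PS c hc t h0 h1⟩

end Helper71.P4
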